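import Pool.Agent.H82.BO.Targets

/-!
Row YPI of the board bopt_modules (MP_c62aed_lc): few tuples of clauses hit `z` assignments which
are far from each other.
-/

set_option autoImplicit false

namespace Pool.Agent.H64.BOP

open Finset Pool.Agent.H82.BO
open Pool.Agent.H15.FLC (Half Violates InsC CovC KerC ErrC BRC ERC KRC BadC)
open Pool.Agent.H15.FLD (H0 tau0 Par0 T_EB0 T_HX0 T_NM0)

section

variable {z μ : ℕ} [Nonempty (Fin z)]

/-- a choice of representatives of the fibres of `j` -/
noncomputable def rho (j : Fin z → Fin μ) (a : Fin z) : Fin z := Function.invFun j (j a)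

theorem j_rho (j : Fin z → Fin μ) (a : Fin z) : j (rho j a) = j a :=
  Function.invFun_eq ⟨a, rfl⟩

theorem rho_eq_iff (j : Fin z → Fin μ) (a b : Fin z) : rho j a = rho j b ↔ j a = j b := by
  constructor
  · intro h
    rw [← j_rho j a, h, j_rho j]
  · intro h
    unfold rho
    rw [h]

theorem card_image_rho (j : Fin z → Fin μ) :
    (univ.image j).card = (univ.image (rho j)).card := by
  have h1 : univ.image j = (univ.image (rho j)).image j := by
    ext x
    simp only [mem_image, mem_univ, true_and, exists_exists_eq_and, j_rho j]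
  rw [h1]
  refine card_image_of_injOn ?_
  intro a ha b hb hab
  simp only [coe_image, coe_univ, Set.image_univ, Set.mem_range] at ha hb
  obtain ⟨a', rfl⟩ := ha
  obtain ⟨b', rfl⟩ := hb
  rw [j_rho j, j_rho j] at hab
  exact (rho_eq_iff j a' b').2 hab

theorem inj_rho (j : Fin z → Fin μ) : Function.Injective j ↔ Function.Injective (rho j) := by
  constructor
  · intro h a b hab
    exact h ((rho_eq_iff j a b).1 hab)
  · intro h a b hab
    exact h ((rho_eq_iff j a b).2 hab)

theorem card_fibre (ρ : Fin z → Fin z)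
    [DecidablePred fun j : Fin z → Fin μ => rho j = ρ] :
    ((univ : Finset (Fin z → Fin μ)).filter fun j => rho j = ρ).card ≤
      μ ^ (univ.image ρ).card := by
  have h1 : Nat.card ({x // x ∈ univ.image ρ} → Fin μ) = μ ^ (univ.image ρ).card := by
    rw [Nat.card_fun, Nat.card_eq_fintype_card, Fintype.card_fin, Nat.card_eq_fintype_card,
      Fintype.card_coe]
  have h0 : ((univ : Finset (Fin z → Fin μ)).filter fun j => rho j = ρ).card =
      Nat.card {j : Fin z → Fin μ // rho j = ρ} := by
    rw [Nat.card_eq_fintype_card, Fintype.card_subtype]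
  rw [← h1, h0]
  refine Nat.card_le_card_of_injective (fun j => fun x => j.1 x.1) ?_
  rintro ⟨j, e1⟩ ⟨j', e2⟩ h
  refine Subtype.ext ?_
  funext a
  have h2 : ρ a ∈ univ.image ρ := mem_image_of_mem ρ (mem_univ a)
  have h3 := congrFun h ⟨ρ a, h2⟩
  simp only at h3
  have h4 := j_rho j a
  have h5 := j_rho j' a
  rw [e1] at h4
  rw [e2] at h5
  exact h4.symm.trans (h3.trans h5)

end

open Classical in
/-- the sum of the weights -/
theorem sum_weights (l μ z : ℕ) (η lam : ℝ) (hη1 : η ≤ 1) (hl0 : 0 ≤ lam) (hl1 : lam ≤ 1)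
    (hμ : (μ : ℝ) ≤ lam * 2 ^ l) (hηl : (1 - η) ^ l ≤ lam ^ z) :
    ∑ j : Fin z → Fin μ, (if Function.Injective j then (1 : ℝ) else (1 - η) ^ l) /
      (2 ^ l) ^ (univ.image j).card ≤ (z : ℝ) ^ z * lam ^ z := by
  rcases Nat.eq_zero_or_pos z with rfl | hz
  · have h1 : ∀ j : Fin 0 → Fin μ, Function.Injective j := fun j a => a.elim0
    have h2 : ∀ j : Fin 0 → Fin μ, (univ.image j).card = 0 := fun j => by
      rw [card_eq_zero, image_eq_empty]
      exact univ_eq_empty
    simp [h1]
  · have hne : Nonempty (Fin z) := ⟨⟨0, hz⟩⟩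
    have hp : (0 : ℝ) < 2 ^ l := by positivity
    have hη0 : 0 ≤ (1 - η) ^ l := pow_nonneg (by linarith) l
    rw [← sum_fiberwise_of_maps_to (s := univ) (t := (univ : Finset (Fin z → Fin z)))
      (g := rho) (fun _ _ => mem_univ _)]
    have hfib : ∀ ρ : Fin z → Fin z, ∑ j ∈ (univ : Finset (Fin z → Fin μ)) with rho j = ρ,
        (if Function.Injective j then (1 : ℝ) else (1 - η) ^ l) / (2 ^ l) ^ (univ.image j).card ≤
          lam ^ z := by
      intro ρ
      set c : ℝ := if Function.Injective ρ then (1 : ℝ) else (1 - η) ^ l with hc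
      set b : ℕ := (univ.image ρ).card with hb
      have hc0 : 0 ≤ c := by
        rw [hc]
        split_ifs
        · exact zero_le_one
        · exact hη0
      have h1 : ∀ j ∈ (univ : Finset (Fin z → Fin μ)).filter fun j => rho j = ρ,
          (if Function.Injective j then (1 : ℝ) else (1 - η) ^ l) /
            (2 ^ l) ^ (univ.image j).card = c / (2 ^ l) ^ b := by
        intro j hj
        have e1 : rho j = ρ := (mem_filter.1 hj).2
        have e2 : Function.Injective j ↔ Function.Injective ρ := e1 ▸ inj_rho j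
        have e3 : (univ.image j).card = b := by
          rw [card_image_rho, e1]
        rw [e3, hc]
        by_cases h : Function.Injective ρ
        · rw [if_pos h, if_pos (e2.2 h)]
        · rw [if_neg h, if_neg fun h' => h (e2.1 h')]
      rw [sum_congr rfl h1, sum_const, nsmul_eq_mul]
      have h2 : ((((univ : Finset (Fin z → Fin μ)).filter fun j => rho j = ρ).card : ℕ) : ℝ) ≤
          (μ : ℝ) ^ b := by
        exact_mod_cast card_fibre (μ := μ) ρ
      have h3 : (μ : ℝ) ^ b ≤ (lam * 2 ^ l) ^ b := pow_le_pow_left₀ (Nat.cast_nonneg _) hμ b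
      calc ((((univ : Finset (Fin z → Fin μ)).filter fun j => rho j = ρ).card : ℕ) : ℝ) *
            (c / (2 ^ l) ^ b)
          ≤ (lam * 2 ^ l) ^ b * (c / (2 ^ l) ^ b) :=
            mul_le_mul_of_nonneg_right (h2.trans h3) (by positivity)
        _ = lam ^ b * c := by
            rw [mul_pow]
            field_simp
        _ ≤ lam ^ z := by
            rw [hc]
            split_ifs with h
            · rw [mul_one]
              have h4 : b = z := by
                rw [hb, card_image_of_injective _ h, card_univ, Fintype.card_fin]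
              rw [h4]
            · calc lam ^ b * (1 - η) ^ l ≤ 1 * lam ^ z :=
                    mul_le_mul (pow_le_one₀ hl0 hl1) hηl hη0 zero_le_one
                _ = lam ^ z := one_mul _
    calc _ ≤ ∑ _ρ : Fin z → Fin z, lam ^ z := sum_le_sum fun ρ _ => hfib ρ
      _ = (z : ℝ) ^ z * lam ^ z := by
          rw [sum_const, nsmul_eq_mul, card_univ, Fintype.card_fun, Fintype.card_fin]
          push_cast
          rfl

theorem pf_YPI (hYPA : T_YPA) : T_YPI := by
  classical
  intro n l μ z η lam y hη0 hη1 hl0 hl1 hfar hμ hηl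
  have h1 : ∀ j : Fin z → Fin μ,
      (((univ : Finset (Fin μ → Half n l)).filter fun G => ∀ a, Violates (G (j a)) (y a)).card : ℝ)
        ≤ (if Function.Injective j then (1 : ℝ) else (1 - η) ^ l) /
          (2 ^ l) ^ (univ.image j).card * Nat.card (Fin μ → Half n l) := by
    intro j
    have h2 := hYPA n l μ z η y j hη0 hη1 hfar
    rw [Nat.card_eq_fintype_card, Fintype.card_subtype] at h2
    refine le_trans (le_of_eq ?_) (h2.trans (le_of_eq ?_))
    · congr 2
    · congr 3
  have h3 : Nat.card {G : Fin μ → Half n l // ∀ a, ∃ j, Violates (G j) (y a)} ≤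
      ∑ j : Fin z → Fin μ,
        ((univ : Finset (Fin μ → Half n l)).filter fun G => ∀ a, Violates (G (j a)) (y a)).card := by
    rw [Nat.card_eq_fintype_card, Fintype.card_subtype]
    refine le_trans (card_le_card ?_) card_biUnion_le
    intro G hG
    have h4 : ∀ a, ∃ j, Violates (G j) (y a) := (mem_filter.1 hG).2
    choose j hj using h4
    rw [mem_biUnion]
    exact ⟨j, mem_univ _, mem_filter.2 ⟨mem_univ _, hj⟩⟩
  have h5 : (Nat.card {G : Fin μ → Half n l // ∀ a, ∃ j, Violates (G j) (y a)} : ℝ) ≤
      ∑ j : Fin z → Fin μ, (((univ : Finset (Fin μ → Half n l)).filter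
        fun G => ∀ a, Violates (G (j a)) (y a)).card : ℝ) := by
    exact_mod_cast h3
  refine h5.trans ((sum_le_sum fun j _ => h1 j).trans ?_)
  rw [← sum_mul]
  refine mul_le_mul_of_nonneg_right ?_ (Nat.cast_nonneg _)
  exact sum_weights l μ z η lam hη1 hl0 hl1 hμ hηl

end Pool.Agent.H64.BOP
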